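import Pool.Agent.H77.STAT.StaT
import Pool.Agent.H60.GEN.CelE
import Pool.Agent.H60.GEN.TopE
import Pool.Agent.H80.STAT.RecJ
import Pool.Agent.H82.STAT.Kjd

/-!
# The strategy of a class, rows of slope one from exactness

As `Pool.PKG.PkT.play`, for the rows of a larger rate `ρ` (`NumI.chg`), with the rows `RowsJ`
(`RowsR`), in which the charts at one window differ by constants. `ExcJ`: the exactness of the kit of
the affine cells. `PkT.rowsR_of`: the rows (I) from exactness. `PkT.playX_of`: the strategy of a class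
from exactness and the static chains.
-/

set_option autoImplicit false

namespace Pool.STR.NumI

open MeasureTheory Set Filter Topology Pool.LEV Pool.RTS Pool.STA
open Pool.GEN Pool.S6C Pool.STAT Pool.PB Pool.STK Pool.KS3 Pool.KA Pool.K2S
open Pool.STAT.DPP (Stc)
open Pool.STAT.GRD
open Pool.CHT (TmH)
open Pool.STAT.CLO (Inj)
open Pool.ISR (JatRN)

variable {P : ℝ → ℝ → ℝ} {ρ : ℝ → ℝ} {nk : NumI P ρ}

/-- **The labels at a row whose target has slope one**, charts which differ by constants. -/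
theorem labJ_one (hP : Law P) (hP01 : ∀ a : ℝ, 0 ≤ a → a ≤ 1 → a ≤ P a a ∧ P a a ≤ 1)
    {m : ℕ} {S : PCl m} {o : nk.O} {e : ℕ → Fin m} {L : ℕ → ℝ → ℝ → ℝ} {θ g : ℝ}
    {P' : List (Fin m) × Fin m → ℝ → ℝ → ℝ} {W : Set ℝ} {Att : Set (ℝ × ℝ)}
    (H : Ctx S e nk.m L θ P' ρ) (hTm : TmH S) (R : nk.RwD o g)
    (hdia : ∀ i ≤ nk.m, ∀ a, 0 ≤ a → a ≤ 1 → L (i + 1) a a = nk.dg o i a)
    (hPT : ∀ b ∈ W, 0 < b → b < 1 → nk.PT o b b = P b b)
    (hone : deriv (fun a => P a a) g = 1) {ρJ E : ℝ} (hρJ : 0 < ρJ) (hE : 0 ≤ E)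
    (htop : ∀ i ≤ nk.m, nk.dg o i g + E < 1)
    (hJat : JatRN S (fun l => e (l + 1)) nk.m (nk.Li o) g Att ρJ E)
    (hrow : ∀ ρ' : ℝ, 0 < ρ' → RowsJ S e nk.m (nk.Li o) (nk.pst o g) (nk.sg o g) g W Att ρJ E
      (θ * g / 8 / 2) ρ') :
    ∃ (p : ℕ → Prop) (_ : DecidablePred p), Stc p (nk.m + 1) ∧
      LabI S e nk.m L (fun _ : Unit => nk.Lc o) (fun _ _ _ => True) p (nk.sg o g) g W
        (fun _ => Att) (θ * g / 8) := by
  have hg0 := R.g0
  have hg1 := R.g1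
  have hlt := R.lt
  have hθg : 0 < θ * g / 8 := by
    have := mul_pos H.θ_pos hg0
    positivity
  obtain ⟨ρ', hρ', hJE⟩ := hJat (θ * g / 8 / 2) (by positivity)
  have hdm : HasDerivAt (nk.dz o nk.m) 1 g := by
    have h1 := (R.dif nk.m le_rfl).hasDerivAt
    have e1 : deriv (nk.dg o nk.m) g = 1 := by rw [nk.dg_m]; exact hone
    rw [e1] at h1
    refine h1.congr_of_eventuallyEq ?_
    filter_upwards [lt_mem_nhds hg0] with v hv
    exact nk.dz_pos o _ hv
  refine ⟨nk.pst o g, inferInstance, nk.stc_pst o g, ?_⟩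
  refine labJ_of (n := nk.m) (Lc := nk.Li o) (ρJ := ρJ) (E := E) (ρ' := ρ') hTm ?_ hg0 hg1 hθg
    (fun i => ?_) (fun i a w h0 h1 h2 => ?_) (fun s ε hε => ?_)
    (fun i hi a w => nk.li_big o hi a w) (fun a w => H.zero a w) (fun i hi a w => H.big i hi a w)
    (fun i hi a h0 h1 => ?_) (fun b hb h0 h1 => ?_) rfl (fun i => ?_) (nk.stc_pst o g)
    (fun i hi => ?_) hρJ hE ?_ (fun i hi => ?_) hρ' hJE (hrow ρ' hρ')
  · intro l hl l' hl' h
    have := H.inj (l + 1) (l' + 1) (by omega) (by omega) (by omega) (by omega) h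
    omega
  · rcases Nat.lt_or_ge nk.m i with h | h
    · have : nk.Li o i = fun a _ => a := by
        funext a w
        exact nk.li_big o h a w
      rw [this]
      exact ⟨fun _ _ _ _ _ h _ => h, fun _ _ _ _ _ _ _ => le_rfl, fun _ _ _ _ _ _ _ =>
        min_le_right _ _⟩
    · rw [nk.li_le o h]
      exact iso_law (diag_dz hP hP01 o h)
  · rcases Nat.lt_or_ge nk.m i with h | h
    · rw [nk.li_big o h]
    · rw [nk.li_le o h]
      exact iso_low (diag_dz hP hP01 o h) h0 h1 h2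
  · -- the cells
    obtain ⟨r₀, hr₀, h1⟩ := cellI_iso (n := nk.m) (σ := fun i => nk.sg o g (i + 1)) (s := s)
      (diag_dz hP hP01 o le_rfl) hdm (by
        show deriv (nk.dg o nk.m) g = 1
        rw [nk.dg_m]
        exact hone) hg0 hg1 (by
        rw [nk.dz_pos o _ hg0]
        exact hlt nk.m le_rfl) hε
    refine ⟨ε, r₀, hε, hr₀, fun _ r b hr hrr hbg hbW C => ?_⟩
    have hb := abs_le.1 hbg
    have hb0 : 0 < b := by
      have := C.lo
      linarith
    have hb1 : b < 1 := by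
      have := C.hi
      linarith
    refine h1 (nk.Lc o) (nk.Li o) r b (fun i hi => ?_) (nk.li_le o le_rfl) (fun w h2 h3 => ?_) ?_
      hr hrr hbg C
    · rw [nk.li_le o hi.le, nk.dz_lt o hi, nk.dg_lt o hi, nk.lc_lt o hi]
    · rw [nk.lc_m]
      rcases h2.eq_or_lt with h4 | h4
      · rw [← h4]
        exact (if_pos ⟨rfl, rfl⟩ : nk.dz o nk.m 0 = _).ge
      · rw [nk.dz_pos o _ h4, nk.dg_m]
        exact nk.hle o w w h4 le_rfl h3
    · rw [nk.lc_m, nk.dz_pos o _ hb0, nk.dg_m]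
      exact hPT b hbW hb0 hb1
  · rw [nk.li_le o hi.le, iso_dia (diag_dz hP hP01 o hi.le) h0 h1, nk.dz_lt o hi]
    exact hdia i hi.le a h0 h1
  · rw [nk.li_le o le_rfl, iso_dia (diag_dz hP hP01 o le_rfl) h0.le h1.le, nk.dz_pos o _ h0]
    exact hdia nk.m le_rfl b h0.le h1.le
  · rcases i with _ | i
    · exact le_rfl
    · show 1 ≤ deriv (nk.dg o i) g
      rcases Nat.lt_or_ge nk.m i with h | h
      · have e1 : nk.dg o i = fun a => P a a := by
          funext a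
          unfold dg
          rw [dif_neg (by omega)]
        rw [e1, hone]
      · exact R.one i h
  · constructor
    · rintro (h | h)
      · exact h
      · omega
    · exact fun h => Or.inl h
  · have h1 := htop nk.m le_rfl
    rw [nk.dg_m] at h1
    have h2 := (hP01 g hg0.le hg1.le).1
    linarith
  · rw [nk.li_le o hi, iso_dia (diag_dz hP hP01 o hi) hg0.le hg1.le, nk.dz_pos o _ hg0]
    exact htop i hi

/-- **The rows of a larger rate** are rows of the rate. -/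
theorem rwD_chg {r : ℝ → ℝ} {nk : NumI P r} (h : Rle r ρ)
    (hP : ∀ a : ℝ, 0 ≤ a → a ≤ 1 → P a a ≤ 1) (hL : Law P) (o : nk.O) :
    ∀ᵐ g : ℝ, (nk.chg h hP).RwD o g → nk.RwD o g := by
  have h1 := ae_notMem_of_null (Pool.PKG.dgP_mono hL)
    (ae_iff.1 h.lip.ae_differentiableAt_real)
  filter_upwards [h1] with g h2 R
  have hm : (nk.chg h hP).m = nk.m := rfl
  have h3 := R.dif nk.m le_rfl
  have h4 := R.one nk.m le_rfl
  have e1 : (nk.chg h hP).dg o nk.m = fun a => P a a := (nk.chg h hP).dg_m o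
  rw [e1] at h3 h4
  have e2 : Pool.PKG.dgP P =ᶠ[𝓝 g] fun a => P a a := by
    filter_upwards [Ioo_mem_nhds R.g0 R.g1] with v hv
    exact Pool.PKG.dgP_eq P hv.1.le hv.2.le
  have h5 := h2 (h3.congr_of_eventuallyEq e2) (by
    rw [e2.deriv_eq]
    linarith)
  rw [Pool.PKG.dgP_eq P R.g0.le R.g1.le] at h5
  simp only [not_not] at h5
  exact ⟨R.mem, R.g0, R.g1, R.val, R.dif, R.one, R.lt, h5, (h.deriv_le h5 R.rdif).trans_lt R.rlt⟩

end Pool.STR.NumI

namespace Pool.PKG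

open MeasureTheory Set Filter Topology
open Pool.Agent.H49.Ent Pool.Agent.H32.Dense Pool.STK Pool.KA Pool.KSAT Pool.K2S Pool.PB
open Pool.GEN Pool.S6C Pool.STAT Pool.CHT Pool.GRW Pool.ONE Pool.STA
open Pool.LBT (LSys ThrOf)
open Pool.LEV (Law)
open Pool.ALL (RateOf)
open Pool.TOP (TopS)
open Pool.RTS (iso iso_dia iso_law iso_low diag_thr Diag)
open Pool.STR (NumI LeT CellD AttN Rle StaAt)
open Pool.FRN (AttC UpA Wgd attN_attC)
open Pool.TRC (JatN)
open Pool.ISR (JatRN jatR_rts jatRN_congr)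
open Pool.STAT.CLO (up)
open Pool.MIC6 (ExS)

variable {n : ℕ}

section

variable {hn : 2 ≤ n} {S : PCl n} {P : ℝ → ℝ → ℝ} {r ρ : ℝ → ℝ}
  {P' : ℕ → List (Fin n) × Fin n → ℝ → ℝ → ℝ} {Λ : Finset (Fin n) → Fin n → ℝ → ℝ → ℝ}
  {PB : ℕ → List (Fin n) × Fin n → ℝ → ℝ → ℝ}

/-- **The labels over the fattest boxes**: joint chains near the window, the charts at one window
differ by constants. -/
theorem PkT.jatR (H : PkT hn S P r P' Λ PB) (hTop : TopS n) (hF : FZX (n - 1)) {o : Od n}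
    {g α Q c : ℝ} (F : Fac hn S P r P' o g α Q c) {E ρJ : ℝ} (hE : 0 < E) (hρJ : 0 < ρJ)
    (htop : ∀ l ≤ n - 1, LL hn P P' o (l + 1) g g + E < 1)
    (hJ : JatN S (cc hn o.1.1) (n - 1) (fun l => LL hn P P' o (l + 1)) g (AttC (P' o.2)) ρJ E) :
    ∃ E' ρ' : ℝ, 0 < E' ∧ 0 < ρ' ∧ (∀ i ≤ n - 1, (H.nk hTop hF).dg o i g + E' < 1) ∧
      JatRN S (cc hn o.1.1) (n - 1) ((H.nk hTop hF).Li o) g (AttI (P' o.2)) ρ' E' := by
  have hlaw : ∀ l ≤ n - 1, Law (LL hn P P' o (l + 1)) := fun l _ => (H.ctx o).law (l + 1)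
  obtain ⟨E', hEE, hE'⟩ : ∃ E' : ℝ, E < E' ∧ ∀ l ≤ n - 1, LL hn P P' o (l + 1) g g + E' < 1 := by
    obtain ⟨x, hx, h1⟩ := PrM.fset_small (Finset.range (n - 1 + 1))
      (Q := fun l x => LL hn P P' o (l + 1) g g + (E + x) < 1) fun l hl => by
        have h2 := htop l (Nat.lt_succ_iff.1 (Finset.mem_range.1 hl))
        exact ⟨(1 - (LL hn P P' o (l + 1) g g + E)) / 2, by linarith, fun e' _ h3 => by linarith⟩
    exact ⟨E + x, by linarith, fun l hl => h1 x hx le_rfl l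
      (Finset.mem_range.2 (Nat.lt_succ_of_le hl))⟩
  have hden : ∀ u v : ℝ, 0 < u → u < v → v < 1 → ∃ y, u < y ∧ y < v ∧ (y, y) ∈ AttC (P' o.2) := by
    intro u v h0 huv hv
    have h1 := attN_attC (H.cht o.2) 0 0 le_rfl
    simp only [zero_add] at h1
    have h2 : ∃ y ∈ Ioo u v, 0 < y → y < 1 → (y, y) ∈ AttC (P' o.2) := by
      by_contra hcon
      push Not at hcon
      have h3 : Ioo u v ⊆ {y | ¬ (0 < y → y < 1 → (y, y) ∈ AttC (P' o.2))} := fun y hy h4 => by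
        obtain ⟨h5, h6, h7⟩ := hcon y hy
        exact h7 (h4 h5 h6)
      have h4 := measure_mono_null h3 h1
      rw [Real.volume_Ioo, ENNReal.ofReal_eq_zero] at h4
      linarith
    obtain ⟨y, hy, h3⟩ := h2
    exact ⟨y, hy.1, hy.2, h3 (by linarith [hy.1]) (by linarith [hy.2])⟩
  have hcon : ∀ l ≤ n - 1, ContinuousAt (fun v => LL hn P P' o (l + 1) v v) g := by
    intro l hl
    rcases hl.lt_or_eq with h | h
    · rw [LL_low (by omega) (by omega)]
      exact F.con _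
    · subst h
      rw [LL_lst]
      exact F.conP
  have hpos : ∀ l ≤ n - 1, 0 < LL hn P P' o (l + 1) g g := fun l _ =>
    F.g0.trans_le ((H.ctx o).ge (l + 1) F.g0.le le_rfl F.g1.le)
  obtain ⟨ρ₁, hρ₁, h1⟩ := jatR_rts H.tmh (c := cc hn o.1.1) (r := n - 1)
    (β := fun l => LL hn P P' o (l + 1))
    (fun i hi j hj h => cc_inj' hn o.1.1 (by
      rw [Set.mem_Iio] at hi
      omega) (by
      rw [Set.mem_Iio] at hj
      omega) h) hlaw F.g0 F.g1 hcon hpos hE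
    (fun l hl => by
      have := htop l hl
      linarith) hden hρJ hJ hEE
  obtain ⟨ρ', hρ'⟩ : ∃ ρ', ρ' = min ρ₁ (g / 2) := ⟨_, rfl⟩
  have hg0 := F.g0
  have hρ'0 : 0 < ρ' := by rw [hρ']; exact lt_min hρ₁ (by linarith)
  have hρ'1 : ρ' ≤ ρ₁ := by rw [hρ']; exact min_le_left _ _
  have hρ'2 : ρ' ≤ g / 2 := by rw [hρ']; exact min_le_right _ _
  refine ⟨E', ρ', hE.trans hEE, hρ'0, fun i hi => ?_, ?_⟩
  · rw [H.dg_eq hTop hF o hi]
    exact hE' i hi
  · refine (jatRN_congr (h1 ρ' hρ'1) fun l hl a w _ _ h2 h3 => ?_).mono_att fun z hz => hz.2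
    have hw : 0 < w := by
      have := (abs_le.1 h3).1
      linarith
    have e1 : (H.nk hTop hF).Li o l = iso ((H.nk hTop hF).dz o l) := (H.nk hTop hF).li_le o hl
    rw [e1]
    show min 1 ((H.nk hTop hF).dz o l w + (a - w)) = min 1 (LL hn P P' o (l + 1) w w + (a - w))
    rw [(H.nk hTop hF).dz_pos o l hw, H.dg_eq hTop hF o hl]

/-- **Rows (I)**: the rows over the fattest boxes, where the target has slope one. -/
def RowsR (H : PkT hn S P r P' Λ PB) (hTop : TopS n) (hF : FZX (n - 1)) (hr : Rle r ρ)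
    (W : Od n → Set ℝ) : Prop :=
  ∀ o : Od n, ∀ᵐ g : ℝ, ((H.nk hTop hF).chg hr H.up).RwD o g →
    deriv (fun a => P a a) g = 1 → ∀ E ρJ ρ' : ℝ, 0 < E → 0 < ρJ → 0 < ρ' →
      (∀ i ≤ n - 1, (H.nk hTop hF).dg o i g + E < 1) →
      RowsJ S (ee hn o) (n - 1) ((H.nk hTop hF).Li o) ((H.nk hTop hF).pst o g)
        ((H.nk hTop hF).sg o g) g (W o) (AttI (P' o.2)) ρJ E (tht o.2 * g / 8 / 2) ρ'

/-- **Rows (II)**: a strategy at the windows where the target has another slope. -/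
def StaR (H : PkT hn S P r P' Λ PB) (hTop : TopS n) (hF : FZX (n - 1)) (hr : Rle r ρ)
    (W : Od n → Set ℝ) : Prop :=
  ∀ o : Od n, ∀ᵐ g : ℝ, ((H.nk hTop hF).chg hr H.up).RwD o g →
    1 < deriv (fun a => P a a) g →
    STR.GmI (fun _ : Unit => (H.nk hTop hF).Lc o) (fun _ _ _ => True) (n - 1)
      (fun i => (H.nk hTop hF).sg o g (i + 1)) g (W o) (fun _ => AttI (P' o.2))

/-- **No rough coordinate in the rows (II)**, for the rows of the rate `ρ`. -/
def NoRr (H : PkT hn S P r P' Λ PB) (hTop : TopS n) (hF : FZX (n - 1)) (hr : Rle r ρ) : Prop :=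
  ∀ o : Od n, ∀ᵐ g : ℝ, ((H.nk hTop hF).chg hr H.up).RwD o g →
    1 < deriv (fun a => P a a) g → ∀ i < n - 1, StaAt (LL hn P P' o (i + 1)) g

/-- **Rows (II)** from the static chains. -/
theorem PkT.staR_of (H : PkT hn S P r P' Λ PB) (hTop : TopS n) (hF : FZX (n - 1)) (hr : Rle r ρ)
    (hR : NoRr H hTop hF hr) {W : Od n → Set ℝ} (hWG : ∀ o, W o ⊆ Gs P r P' Λ o)
    (hWP : ∀ o, ∀ b ∈ W o, 0 < b → b < 1 → PT hn PB o b b = P b b) : StaR H hTop hF hr W := by
  intro o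
  filter_upwards [hR o, NumI.rwD_chg (nk := H.nk hTop hF) hr H.up (H.tgs.law ()) o] with g h1 h2 R
    h3
  exact H.gmI_sta hTop hF (h2 R) (h1 R h3) (hWG o) (hWP o)

/-- **The strategy of a class** for the rows of the rate `ρ`, from the two kinds of rows. -/
theorem PkT.playR (H : PkT hn S P r P' Λ PB) (hTop : TopS n) (hF : FZX (n - 1)) (hr : Rle r ρ)
    {W : Od n → Set ℝ} (hWm : ∀ o, MeasurableSet (W o))
    (hWf : ∀ o, ∀ᵐ g : ℝ, g ∈ Gs P r P' Λ o → 0 < g → g < 1 → g ∈ W o)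
    (hI : RowsR H hTop hF hr W) (hII : StaR H hTop hF hr W)
    (q : ((H.nk hTop hF).chg hr H.up).Par) : NumI.Play q.cell := by
  have hlaw := H.tgs.law ()
  have hP01 : ∀ a : ℝ, 0 ≤ a → a ≤ 1 → a ≤ P a a ∧ P a a ≤ 1 := fun a h0 h1 =>
    ⟨H.tgs.low () a a h0 le_rfl h1, H.tgs.up () a a h0 le_rfl h1⟩
  obtain ⟨W', w1, w2, hWW, hWG, hWP⟩ := H.exW hTop hF hWm hWf
  have hP : ((H.nk hTop hF).chg hr H.up).PlN W' (fun o => AttI (P' o.2)) := by
    refine ⟨w1, fun o => ?_, fun o => attN_attI (H.cht o.2), fun o => ?_, fun o => ?_⟩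
    · filter_upwards [w2 o] with g h1 h2 h3 h4
      exact h1 h2 h3 h4
    · refine ae_of_all _ fun g hg h0 h1 j => ?_
      obtain ⟨α, Q, c, F⟩ := H.toPk.fac hTop hF (o := o) hg
      have h2 := F.le j j.2 g g h0 le_rfl F.gα
      have h3 := (tht_pos o.2).trans F.thc
      exact lt_of_le_of_lt h2 (by linarith)
    · filter_upwards [hI o, hII o, NumI.rwD_chg (nk := H.nk hTop hF) hr H.up (H.tgs.law ()) o]
        with g h1 h2 h3 R'
      have R := h3 R'
      have hdia : ∀ i ≤ n - 1, ∀ a, 0 ≤ a → a ≤ 1 →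
          LL hn P P' o (i + 1) a a = (H.nk hTop hF).dg o i a := fun i hi a _ _ =>
        (H.dg_eq hTop hF o hi a).symm
      have hexin : ExIn S (ee hn o) (n - 1) (LL hn P P' o) (W' o) := fun w hw =>
        H.toPk.exIn hF o w (hWG o hw)
      have hone : 1 ≤ deriv (fun a => P a a) g := by
        have h3 := R.one (n - 1) le_rfl
        have e1 : (H.nk hTop hF).dg o (n - 1) = fun a => P a a := (H.nk hTop hF).dg_m o
        rwa [e1] at h3
      rcases hone.eq_or_lt with h4 | h4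
      · obtain ⟨α, Q, c, F⟩ := H.toPk.fac hTop hF R.mem
        obtain ⟨E, ρJ, hE, hρJ, htop, hJat⟩ := F.jatE H.toPk
        obtain ⟨E', ρ', hE', hρ', htop', hJat'⟩ := H.jatR hTop hF F hE hρJ htop
          (hJat ρJ le_rfl)
        exact NumI.gmI_lab (nk := H.nk hTop hF) (H.ctx o) hexin R hdia
          (NumI.labJ_one (nk := H.nk hTop hF) hlaw hP01 (H.ctx o) H.tmh R hdia (hWP o) h4.symm hρ'
            hE'.le htop' hJat' fun ρ'' hρ'' =>
              (h1 R' h4.symm E' ρ' ρ'' hE' hρ' hρ'' htop').mono_W (hWW o))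
      · exact gmI_mono (h2 R' h4) (hWW o)
  exact hP.play q

/-- **The strategy of a class** for the rows of the rate `ρ`, from the rows (I) and the static
chains. -/
theorem PkT.playR_of (H : PkT hn S P r P' Λ PB) (hTop : TopS n) (hF : FZX (n - 1))
    (hr : Rle r ρ) {W : Od n → Set ℝ} (hWm : ∀ o, MeasurableSet (W o))
    (hWf : ∀ o, ∀ᵐ g : ℝ, g ∈ Gs P r P' Λ o → 0 < g → g < 1 → g ∈ W o)
    (hI : RowsR H hTop hF hr W) (hR : NoRr H hTop hF hr)
    (q : ((H.nk hTop hF).chg hr H.up).Par) : NumI.Play q.cell := by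
  obtain ⟨W', h1, h2, h3, h4, h5⟩ := H.exW hTop hF hWm hWf
  refine H.playR hTop hF hr h1 h2 (fun o => ?_) (H.staR_of hTop hF hr hR h4 h5) q
  filter_upwards [hI o] with g k1 k2 k3 E ρJ ρ' k4 k5 k6 k7
  exact (k1 k2 k3 E ρJ ρ' k4 k5 k6 k7).mono_W (h3 o)

/-- The kit of the affine cells of a class near the window `g`. -/
noncomputable def PkT.kit (H : PkT hn S P r P' Λ PB) (hTop : TopS n) (hF : FZX (n - 1))
    (o : Od n) (g : ℝ) (D : ℕ) : KitP n (ℝ × ℝ) (n - 1) :=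
  KitJ (cc hn o.1.1) (n - 1) ((H.nk hTop hF).Li o) ((H.nk hTop hF).sg o g) D
    (vBal (cc hn o.1.1) (n - 1) ((H.nk hTop hF).Li o) D) (vBal_her _ _ _ _)

/-- **Exactness of the kit of the affine cells**, where the target has slope one. `W`: windows. -/
def ExcJ (H : PkT hn S P r P' Λ PB) (hTop : TopS n) (hF : FZX (n - 1)) (hr : Rle r ρ)
    (W : Od n → Set ℝ) : Prop :=
  ∀ o : Od n, ∀ᵐ g : ℝ, ((H.nk hTop hF).chg hr H.up).RwD o g →
    deriv (fun a => P a a) g = 1 →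
    ∀ (s D K' s₁ : ℕ) (sh : ℕ → ℕ), 1 ≤ D → 1 ≤ K' →
      (∀ i ≤ n - 1 + 1, (H.nk hTop hF).sg o g i ≤ s) →
      (∀ k : ℝ, 0 < k → ∀ M : ℕ,
        EvQ (IsCJ ((H.nk hTop hF).Li o) (n - 1) ((H.nk hTop hF).sg o g) s g (W o)
          (AttI (P' o.2))) fun N θ p =>
        (H.kit hTop hF o g D).FldN S K' s₁ sh M N θ p fun G J F D' q =>
          OKI.ExN D' G.c G.n G.sh ((H.kit hTop hF o g D).rc p N M θ J F D') (up G.ϖ J)
            (up G.ζ J) G.M (G.gn J) (k * up G.ζ J) q) ∧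
      (∀ k : ℝ, 0 < k → ∀ M : ℕ,
        EvQ (IsCJ ((H.nk hTop hF).Li o) (n - 1) ((H.nk hTop hF).sg o g) s g (W o)
          (AttI (P' o.2))) fun N θ p =>
        (H.kit hTop hF o g D).FldN S K' s₁ sh M N θ p fun G J F D' q =>
          ExS D' G.c G.n G.sh G.M (G.gn J) (k * up G.ζ J) q)

/-- The zero sets of the class. -/
theorem Pk.zc (H : Pk hn S P r P' Λ) : Bas S (fun _ F _ => Zc F) := by
  obtain ⟨al, g₀, s, d, e, K₀, N, -, -, h⟩ := H.cl
  exact ⟨1, one_pos, 0, fun J _ F A hA => (h.mem 1 J F A hA).2.2.2.2.2.2⟩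

/-- **Rows (I) from exactness.** -/
theorem PkT.rowsR_of (H : PkT hn S P r P' Λ PB) (hTop : TopS n) (hF : FZX (n - 1))
    (hr : Rle r ρ) {W : Od n → Set ℝ} (hX : ExcJ H hTop hF hr W) : RowsR H hTop hF hr W := by
  have hlaw := H.tgs.law ()
  have hP01 : ∀ a : ℝ, 0 ≤ a → a ≤ 1 → a ≤ P a a ∧ P a a ≤ 1 := fun a h0 h1 =>
    ⟨H.tgs.low () a a h0 le_rfl h1, H.tgs.up () a a h0 le_rfl h1⟩
  intro o
  filter_upwards [hX o, NumI.rwD_chg (nk := H.nk hTop hF) hr H.up (H.tgs.law ()) o] with g h1 h2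
    R' hone E ρJ ρ' hE hρJ _ htop
  have R := h2 R'
  have hg0 := R.g0
  have hg1 := R.g1
  have hm : (H.nk hTop hF).m = n - 1 := rfl
  have hdz := fun i (hi : i ≤ n - 1) =>
    NumI.diag_dz (nk := H.nk hTop hF) hlaw hP01 o (i := i) hi
  have hLi := fun i (hi : i ≤ n - 1) => (H.nk hTop hF).li_le o (i := i) hi
  have hdgm : (H.nk hTop hF).dg o (n - 1) = fun a => P a a := (H.nk hTop hF).dg_m o
  have hL1 : ∀ i, Law ((H.nk hTop hF).Li o i) := by
    intro i
    rcases Nat.lt_or_ge (n - 1) i with h | h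
    · have : (H.nk hTop hF).Li o i = fun a _ => a := by
        funext a w
        exact (H.nk hTop hF).li_big o h a w
      rw [this]
      exact ⟨fun _ _ _ _ _ h _ => h, fun _ _ _ _ _ _ _ => le_rfl, fun _ _ _ _ _ _ _ =>
        min_le_right _ _⟩
    · rw [hLi i h]
      exact iso_law (hdz i h)
  have hL2 : ∀ i a w, 0 ≤ w → w ≤ a → a ≤ 1 → a ≤ (H.nk hTop hF).Li o i a w := by
    intro i a w h0 h1 h2
    rcases Nat.lt_or_ge (n - 1) i with h | h
    · exact ((H.nk hTop hF).li_big o h a w).ge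
    · rw [hLi i h]
      exact iso_low (hdz i h) h0 h1 h2
  have hL3 : ∀ i ≤ n - 1, (H.nk hTop hF).Li o i g g = (H.nk hTop hF).dg o i g := by
    intro i hi
    rw [hLi i hi, iso_dia (hdz i hi) hg0.le hg1.le, (H.nk hTop hF).dz_pos o _ hg0]
  have hσn : (H.nk hTop hF).sg o g (n - 1 + 1) = 1 := by
    show deriv ((H.nk hTop hF).dg o (n - 1)) g = 1
    rw [hdgm]
    exact hone
  have hσ1 : ∀ i, 1 ≤ (H.nk hTop hF).sg o g i := by
    intro i
    rcases i with _ | i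
    · exact le_rfl
    · show 1 ≤ deriv ((H.nk hTop hF).dg o i) g
      rcases Nat.lt_or_ge (n - 1) i with h | h
      · have e1 : (H.nk hTop hF).dg o i = fun a => P a a := by
          funext a
          unfold NumI.dg
          rw [dif_neg (by rw [hm]; omega)]
        rw [e1, hone]
      · exact R.one i h
  have hinj : CLO.Inj (cc hn o.1.1) (n - 1 + 1) := fun l hl l' hl' h =>
    cc_inj' hn o.1.1 (by omega) (by omega) h
  refine rowsJ_of H.tmh hinj hL1 hL2 (fun l hl a w h0 h1 h2 => ?_) hσn hσ1 hg0 hg1 hE.le hρJ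
    (fun i hi => ?_) fun s D K' s₁ sh hD hK' hs => ?_
  · rw [hLi l hl, iso_dia (hdz l hl) h0 (h1.trans h2)]
    rfl
  · rw [hL3 i hi]
    exact htop i hi
  · obtain ⟨x1, x2⟩ := h1 R' hone s D K' s₁ sh hD hK' hs
    have hLm : (H.nk hTop hF).Li o (n - 1) g g = P g g := by
      rw [hL3 _ le_rfl, hdgm]
    have hlt := R.rlt
    obtain ⟨Bn, C₁, k1, k2, k3⟩ := fctJ_of (S := S) (isCJ_mono) H.tmh H.zc (H.kit hTop hF o g D)
      (fun _ _ _ => rfl) (fun _ => hinj) (fun _ => cc_cov hn o.1.1) (r := r)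
      (fun _ => by
        show RateOf S (cc hn o.1.1 (n - 1)) r
        rw [cc_top]
        exact H.rate) hK'
      (fun _ _ _ _ _ _ _ _ _ => inferInstanceAs (Subsingleton Unit))
      (fun _ _ _ _ _ _ _ _ h => vBal_com h) (h := min 1 (1 - deriv r (P g g)))
      (lt_min one_pos (by linarith)) (min_le_left _ _)
      (kitJ_row hσn (by rw [hLm]; exact R.rdif) (by rw [hLm]; exact hlt)
        (by rw [hLm]; exact min_le_right _ _))
      (kitJ_cel hL1 hL2 hσn hσ1 hs fun i hi => by rw [hL3 i hi]; exact R.lt i hi) x1 x2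
    exact ⟨Bn, min 1 (1 - deriv r (P g g)), C₁, k1, lt_min one_pos (by linarith),
      min_le_left _ _, k2, k3⟩

/-- **The strategy of a class** for the rows of the rate `ρ`, from exactness and the static
chains. -/
theorem PkT.playX_of (H : PkT hn S P r P' Λ PB) (hTop : TopS n) (hF : FZX (n - 1))
    (hr : Rle r ρ) {W : Od n → Set ℝ} (hWm : ∀ o, MeasurableSet (W o))
    (hWf : ∀ o, ∀ᵐ g : ℝ, g ∈ Gs P r P' Λ o → 0 < g → g < 1 → g ∈ W o)
    (hX : ExcJ H hTop hF hr W) (hR : NoRr H hTop hF hr)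
    (q : ((H.nk hTop hF).chg hr H.up).Par) : NumI.Play q.cell :=
  H.playR_of hTop hF hr hWm hWf (H.rowsR_of hTop hF hr hX) hR q

end

end Pool.PKG
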